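import Mathlib

namespace Pool.Agent.Results.MP_d05d56_co.Q1

open Set MeasureTheory

/-- Euclidean distance in the plane. -/
noncomputable def len (p q : ℝ × ℝ) : ℝ := Real.sqrt ((p.1 - q.1) ^ 2 + (p.2 - q.2) ^ 2)

def IsConvexRegion (C : Set (ℝ × ℝ)) : Prop := IsCompact C ∧ Convex ℝ C ∧ (interior C).Nonempty

/-- The segments from `P` to three distinct boundary points cut `C` into pieces (the connected
components of what is left of `C`), each of one third of the area of `C`. -/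
def ThreeRay (C : Set (ℝ × ℝ)) (P : ℝ × ℝ) (A : Fin 3 → ℝ × ℝ) : Prop :=
  (∀ i, A i ∈ frontier C) ∧ Function.Injective A ∧
    ∀ x ∈ C \ ⋃ i, segment ℝ P (A i),
      volume (connectedComponentIn (C \ ⋃ i, segment ℝ P (A i)) x) = volume C / 3

def C : Set (ℝ × ℝ) := {p | p.1 ≤ 20 ∧ -(3 / 10 * (p.1 - 0)) ≤ p.2 ∧ p.2 ≤ 3 / 10 * (p.1 - 0)}
def T : Set (ℝ × ℝ) := {p | p.1 ≤ 20 ∧ -(5 / 16 * (p.1 - 4)) ≤ p.2 ∧ p.2 ≤ 5 / 16 * (p.1 - 4)}
def U1 : Set (ℝ × ℝ) := {p | p.1 ≤ 20 ∧ 0 < p.2 ∧ p.2 < 5 / 16 * (p.1 - 4)}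
def U2 : Set (ℝ × ℝ) := {p | p.1 ≤ 20 ∧ -(5 / 16 * (p.1 - 4)) < p.2 ∧ p.2 < 0}
def A : Fin 3 → ℝ × ℝ := ![(20, -5), (20, 0), (20, 5)]

lemma vol (M : Set (ℝ × ℝ)) (hM : MeasurableSet M) (c k : ℝ) (hk : 0 ≤ k) (hc : c ≤ 20)
    (h : ∀ x, volume (Prod.mk x ⁻¹' M) = if x ≤ 20 then ENNReal.ofReal (k * (x - c)) else 0) :
    volume M = ENNReal.ofReal (k * (20 - c) ^ 2 / 2) := by
  rw [Measure.volume_eq_prod, Measure.prod_apply hM]
  have e : (fun x => volume (Prod.mk x ⁻¹' M)) =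
      (Ioc c 20).indicator (fun x => ENNReal.ofReal (k * (x - c))) := by
    funext x
    rw [h x, indicator_apply]
    by_cases h1 : x ≤ 20
    · by_cases h2 : c < x
      · simp [h1, h2]
      · have : k * (x - c) ≤ 0 := mul_nonpos_of_nonneg_of_nonpos hk (by linarith)
        simp [h1, h2, this]
    · simp [h1]
  rw [e, lintegral_indicator measurableSet_Ioc, ← ofReal_integral_eq_lintegral_ofReal,
    ← intervalIntegral.integral_of_le hc]
  · congr 1
    rw [intervalIntegral.integral_const_mul, intervalIntegral.integral_comp_sub_right (fun x => x),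
      integral_id]
    ring
  · exact (Continuous.integrableOn_Icc (by fun_prop)).mono_set Ioc_subset_Icc_self
  · refine (ae_restrict_iff' measurableSet_Ioc).2 (Filter.Eventually.of_forall fun x hx => ?_)
    exact mul_nonneg hk (by linarith [hx.1])

lemma volC : volume C = ENNReal.ofReal 120 := by
  rw [vol C (by unfold C; measurability) 0 (6 / 10) (by norm_num) (by norm_num)]
  · norm_num
  · intro x
    split_ifs with h
    · have : Prod.mk x ⁻¹' C = Icc (-(3 / 10 * (x - 0))) (3 / 10 * (x - 0)) := by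
        ext y; simp [C, h]
      rw [this, Real.volume_Icc]; congr 1; ring
    · have : Prod.mk x ⁻¹' C = ∅ := by ext y; simp [C, h]
      simp [this]

lemma volT : volume T = ENNReal.ofReal 80 := by
  rw [vol T (by unfold T; measurability) 4 (10 / 16) (by norm_num) (by norm_num)]
  · norm_num
  · intro x
    split_ifs with h
    · have : Prod.mk x ⁻¹' T = Icc (-(5 / 16 * (x - 4))) (5 / 16 * (x - 4)) := by
        ext y; simp [T, h]
      rw [this, Real.volume_Icc]; congr 1; ring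
    · have : Prod.mk x ⁻¹' T = ∅ := by ext y; simp [T, h]
      simp [this]

lemma volU1 : volume U1 = ENNReal.ofReal 40 := by
  rw [vol U1 (by unfold U1; measurability) 4 (5 / 16) (by norm_num) (by norm_num)]
  · norm_num
  · intro x
    split_ifs with h
    · have : Prod.mk x ⁻¹' U1 = Ioo 0 (5 / 16 * (x - 4)) := by
        ext y; simp [U1, h]
      rw [this, Real.volume_Ioo]; congr 1; ring
    · have : Prod.mk x ⁻¹' U1 = ∅ := by ext y; simp [U1, h]
      simp [this]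

lemma volU2 : volume U2 = ENNReal.ofReal 40 := by
  rw [vol U2 (by unfold U2; measurability) 4 (5 / 16) (by norm_num) (by norm_num)]
  · norm_num
  · intro x
    split_ifs with h
    · have : Prod.mk x ⁻¹' U2 = Ioo (-(5 / 16 * (x - 4))) 0 := by
        ext y; simp [U2, h]
      rw [this, Real.volume_Ioo]; congr 1; ring
    · have : Prod.mk x ⁻¹' U2 = ∅ := by ext y; simp [U2, h]
      simp [this]

lemma volU3 : volume (C \ T) = ENNReal.ofReal 40 := by
  have hs : T ⊆ C := fun p hp => by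
    obtain ⟨h1, h2, h3⟩ := hp
    refine ⟨h1, ?_, ?_⟩ <;> linarith
  rw [measure_sdiff hs (by unfold T; measurability : MeasurableSet T).nullMeasurableSet
    (by rw [volT]; exact ENNReal.ofReal_ne_top), volC, volT, ← ENNReal.ofReal_sub _ (by norm_num)]
  norm_num

lemma third : volume C / 3 = ENNReal.ofReal 40 := by
  rw [volC, show (3 : ENNReal) = ENNReal.ofReal 3 by simp, ← ENNReal.ofReal_div_of_pos (by norm_num)]
  norm_num

lemma conv (a b c : ℝ) : Convex ℝ {p : ℝ × ℝ | a * p.1 + b * p.2 ≤ c} ∧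
    Convex ℝ {p : ℝ × ℝ | a * p.1 + b * p.2 < c} := by
  have hl : IsLinearMap ℝ (fun p : ℝ × ℝ => a * p.1 + b * p.2) :=
    ⟨fun p q => by simp; ring, fun t p => by simp; ring⟩
  exact ⟨convex_halfSpace_le hl c, convex_halfSpace_lt hl c⟩

lemma convC : Convex ℝ C := by
  convert ((conv 1 0 20).1.inter (conv (-3 / 10) (-1) 0).1).inter (conv (-3 / 10) 1 0).1 using 1
  ext p
  simp only [C, mem_inter_iff, mem_ofPred_eq]
  constructor
  · rintro ⟨h1, h2, h3⟩; refine ⟨⟨?_, ?_⟩, ?_⟩ <;> linarith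
  · rintro ⟨⟨h1, h2⟩, h3⟩; refine ⟨?_, ?_, ?_⟩ <;> linarith

lemma mem_seg (a : ℝ) (p : ℝ × ℝ) :
    p ∈ segment ℝ ((4, 0) : ℝ × ℝ) (20, a) ↔ 4 ≤ p.1 ∧ p.1 ≤ 20 ∧ p.2 = a / 16 * (p.1 - 4) := by
  constructor
  · rintro ⟨s, t, hs, ht, hst, rfl⟩
    have : s = 1 - t := by linarith
    subst this
    simp only [Prod.smul_mk, Prod.mk_add_mk, smul_eq_mul]
    refine ⟨by linarith, by linarith, by ring⟩
  · rintro ⟨h1, h2, h3⟩
    refine ⟨1 - (p.1 - 4) / 16, (p.1 - 4) / 16, by linarith, by linarith, by ring, ?_⟩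
    ext
    · simp; ring
    · simp [h3]; ring

lemma mem_F (p : ℝ × ℝ) : p ∈ C \ (⋃ i, segment ℝ ((4, 0) : ℝ × ℝ) (A i)) ↔
    p ∈ U1 ∨ p ∈ U2 ∨ p ∈ C \ T := by
  simp only [mem_sdiff, mem_iUnion, Fin.exists_fin_succ, A, Matrix.cons_val_zero, Matrix.cons_val_succ,
    mem_seg, C, T, U1, U2, mem_ofPred_eq, IsEmpty.exists_iff, or_false]
  constructor
  · rintro ⟨⟨h1, h2, h3⟩, h⟩
    by_cases hT : -(5 / 16 * (p.1 - 4)) ≤ p.2 ∧ p.2 ≤ 5 / 16 * (p.1 - 4)
    · have h4 : 4 ≤ p.1 := by linarith [hT.1, hT.2]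
      rcases lt_trichotomy p.2 0 with h0 | h0 | h0
      · refine Or.inr (Or.inl ⟨h1, lt_of_le_of_ne hT.1 fun e => h (Or.inl ⟨h4, h1, ?_⟩), h0⟩)
        linarith
      · exact absurd (Or.inr (Or.inl ⟨h4, h1, by linarith⟩)) h
      · exact Or.inl ⟨h1, h0, lt_of_le_of_ne hT.2 fun e => h (Or.inr (Or.inr ⟨h4, h1, e⟩))⟩
    · exact Or.inr (Or.inr ⟨⟨h1, h2, h3⟩, fun h' => hT h'.2⟩)
  · rintro (⟨h1, h2, h3⟩ | ⟨h1, h2, h3⟩ | ⟨h1, h2⟩)
    · refine ⟨⟨h1, by linarith, by linarith⟩, ?_⟩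
      rintro (⟨_, _, h⟩ | ⟨_, _, h⟩ | ⟨_, _, h⟩) <;> linarith
    · refine ⟨⟨h1, by linarith, by linarith⟩, ?_⟩
      rintro (⟨_, _, h⟩ | ⟨_, _, h⟩ | ⟨_, _, h⟩) <;> linarith
    · refine ⟨h1, ?_⟩
      rintro (⟨_, _, h⟩ | ⟨_, _, h⟩ | ⟨_, _, h⟩) <;> exact h2 ⟨by linarith, by linarith, by linarith⟩

lemma comp {F U u v : Set (ℝ × ℝ)} {x : ℝ × ℝ} (hx : x ∈ U) (hU : IsPreconnected U) (h1 : U ⊆ F)
    (hu : IsOpen u) (hv : IsOpen v) (hd : Disjoint u v) (h2 : F ⊆ u ∪ v) (h3 : U ⊆ u)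
    (h4 : F ∩ u ⊆ U) : connectedComponentIn F x = U := by
  apply Subset.antisymm _ (hU.subset_connectedComponentIn hx h1)
  have := (isPreconnected_connectedComponentIn (F := F) (x := x)).subset_left_of_subset_union hu hv hd
    ((connectedComponentIn_subset _ _).trans h2) ⟨x, mem_connectedComponentIn (h1 hx), h3 hx⟩
  exact fun p hp => h4 ⟨connectedComponentIn_subset _ _ hp, this hp⟩

def O1 : Set (ℝ × ℝ) := {p | 0 < p.2 ∧ p.2 < 5 / 16 * (p.1 - 4)}
def O2 : Set (ℝ × ℝ) := {p | -(5 / 16 * (p.1 - 4)) < p.2 ∧ p.2 < 0}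
def O3 : Set (ℝ × ℝ) := {p | p.2 < -(5 / 16 * (p.1 - 4)) ∨ 5 / 16 * (p.1 - 4) < p.2}

lemma o1 : IsOpen O1 := by
  unfold O1
  refine IsOpen.and ?_ ?_ <;> exact isOpen_lt (by fun_prop) (by fun_prop)
lemma o2 : IsOpen O2 := by
  unfold O2
  refine IsOpen.and ?_ ?_ <;> exact isOpen_lt (by fun_prop) (by fun_prop)
lemma o3 : IsOpen O3 := by
  unfold O3
  rw [ofPred_or]
  refine IsOpen.union ?_ ?_ <;> exact isOpen_lt (by fun_prop) (by fun_prop)

lemma m3 {p : ℝ × ℝ} (h : p ∈ C \ T) : p ∈ O3 := by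
  by_contra hc
  simp only [O3, mem_ofPred_eq, not_or, not_lt] at hc
  exact h.2 ⟨h.1.1, hc.1, hc.2⟩

theorem result : ∃ (C : Set (ℝ × ℝ)) (P : ℝ × ℝ) (A : Fin 3 → ℝ × ℝ), IsConvexRegion C ∧
    P ∈ interior C ∧ ThreeRay C P A ∧
    ∀ i, ∀ B₁ ∈ C, ∀ B₂ ∈ C, len (A i) B₁ + len (A i) B₂ < ∑ j, len P (A j) := by
  have hcl : IsClosed C := by
    unfold C
    refine IsClosed.and ?_ (IsClosed.and ?_ ?_) <;> exact isClosed_le (by fun_prop) (by fun_prop)
  have hP : ((4, 0) : ℝ × ℝ) ∈ interior C := by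
    refine mem_interior.2 ⟨Ioo 3.5 20 ×ˢ Ioo (-1) 1, ?_, isOpen_Ioo.prod isOpen_Ioo, ?_⟩
    · rintro p ⟨⟨h1, h2⟩, h3, h4⟩
      refine ⟨?_, ?_, ?_⟩ <;> linarith
    · simp only [mem_prod, mem_Ioo]; norm_num
  refine ⟨C, (4, 0), A, ⟨?_, convC, ⟨_, hP⟩⟩, hP, ⟨?_, ?_, ?_⟩, ?_⟩
  · refine (isCompact_Icc (a := ((0, -6) : ℝ × ℝ)) (b := (20, 6))).of_isClosed_subset hcl ?_
    rintro p ⟨h1, h2, h3⟩
    refine ⟨⟨?_, ?_⟩, ⟨?_, ?_⟩⟩ <;> simp only <;> linarith
  · have key : ∀ a : ℝ, -6 ≤ a → a ≤ 6 → ((20, a) : ℝ × ℝ) ∈ frontier C := by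
      intro a h1 h2
      rw [hcl.frontier_eq]
      refine ⟨⟨le_rfl, by simp only; linarith, by simp only; linarith⟩, fun h => ?_⟩
      have h3 : (fun x : ℝ => ((x, a) : ℝ × ℝ)) ⁻¹' interior C ∈ nhds (20 : ℝ) :=
        (isOpen_interior.preimage (by fun_prop)).mem_nhds h
      obtain ⟨u, hu, hs⟩ := exists_Ico_subset_of_mem_nhds h3 ⟨21, by norm_num⟩
      have := (interior_subset (hs (a := (20 + u) / 2) ⟨by linarith, by linarith⟩)).1
      simp only at this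
      linarith
    intro i
    fin_cases i <;> exact key _ (by norm_num) (by norm_num)
  · intro i j h
    fin_cases i <;> fin_cases j <;> simp [A] at h ⊢ <;> linarith
  · intro x hx
    rw [third]
    rcases (mem_F x).1 hx with h | h | h
    · rw [comp h _ (fun p hp => (mem_F p).2 (Or.inl hp)) o1 (o2.union o3), volU1]
      · rw [disjoint_left]
        rintro p ⟨h1, h2⟩ (⟨h3, h4⟩ | h3 | h3) <;> linarith
      · intro p hp
        rcases (mem_F p).1 hp with h | h | h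
        exacts [Or.inl h.2, Or.inr (Or.inl h.2), Or.inr (Or.inr (m3 h))]
      · exact fun p hp => hp.2
      · exact fun p hp => ⟨hp.1.1.1, hp.2⟩
      · convert (((conv 1 0 20).1.inter (conv 0 (-1) 0).2).inter
          (conv (-5 / 16) 1 (-5 / 4)).2).isPreconnected using 1
        ext p
        simp only [U1, mem_inter_iff, mem_ofPred_eq]
        constructor
        · rintro ⟨h1, h2, h3⟩; refine ⟨⟨?_, ?_⟩, ?_⟩ <;> linarith
        · rintro ⟨⟨h1, h2⟩, h3⟩; refine ⟨?_, ?_, ?_⟩ <;> linarith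
    · rw [comp h _ (fun p hp => (mem_F p).2 (Or.inr (Or.inl hp))) o2 (o1.union o3), volU2]
      · rw [disjoint_left]
        rintro p ⟨h1, h2⟩ (⟨h3, h4⟩ | h3 | h3) <;> linarith
      · intro p hp
        rcases (mem_F p).1 hp with h | h | h
        exacts [Or.inr (Or.inl h.2), Or.inl h.2, Or.inr (Or.inr (m3 h))]
      · exact fun p hp => hp.2
      · exact fun p hp => ⟨hp.1.1.1, hp.2⟩
      · convert (((conv 1 0 20).1.inter (conv 0 1 0).2).inter
          (conv (-5 / 16) (-1) (-5 / 4)).2).isPreconnected using 1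
        ext p
        simp only [U2, mem_inter_iff, mem_ofPred_eq]
        constructor
        · rintro ⟨h1, h2, h3⟩; refine ⟨⟨?_, ?_⟩, ?_⟩ <;> linarith
        · rintro ⟨⟨h1, h2⟩, h3⟩; refine ⟨?_, ?_, ?_⟩ <;> linarith
    · rw [comp h _ (fun p hp => (mem_F p).2 (Or.inr (Or.inr hp))) o3 (o1.union o2), volU3]
      · rw [disjoint_left]
        rintro p (h3 | h3) (⟨h1, h2⟩ | ⟨h1, h2⟩) <;> linarith
      · intro p hp
        rcases (mem_F p).1 hp with h | h | h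
        exacts [Or.inr (Or.inl h.2), Or.inr (Or.inr h.2), Or.inl (m3 h)]
      · exact fun p hp => m3 hp
      · rintro p ⟨hp, h3 | h3⟩ <;> exact ⟨hp.1, fun h => by linarith [h.2.1, h.2.2]⟩
      · convert IsPreconnected.union ((0, 0) : ℝ × ℝ) _ _
          (convC.inter (conv (5 / 16) 1 (5 / 4)).2).isPreconnected
          (convC.inter (conv (5 / 16) (-1) (5 / 4)).2).isPreconnected using 1
        · ext p
          constructor
          · intro hp
            rcases m3 hp with h | h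
            · exact Or.inl ⟨hp.1, by simp only [mem_ofPred_eq]; linarith⟩
            · exact Or.inr ⟨hp.1, by simp only [mem_ofPred_eq]; linarith⟩
          · rintro (⟨hp, h3⟩ | ⟨hp, h3⟩) <;> simp only [mem_ofPred_eq] at h3 <;>
              exact ⟨hp, fun h => by linarith [h.2.1, h.2.2]⟩
        · simp [C]
        · simp [C]
  · have up : ∀ a : ℝ, -5 ≤ a → a ≤ 5 → ∀ B ∈ C, len (20, a) B < 24 := by
      rintro a h1 h2 B ⟨h3, h4, h5⟩
      unfold len
      rw [Real.sqrt_lt' (by norm_num)]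
      have h6 : (20 - B.1) ^ 2 ≤ 20 ^ 2 := by nlinarith
      have h7 : (a - B.2) ^ 2 ≤ 11 ^ 2 := by nlinarith
      simp only
      linarith
    have lo : ∀ a : ℝ, 16 ≤ len (4, 0) (20, a) := by
      intro a
      unfold len
      apply Real.le_sqrt_of_sq_le
      simp only
      nlinarith [sq_nonneg (0 - a)]
    intro i B₁ h1 B₂ h2
    rw [Fin.sum_univ_three]
    have l0 := lo (-5)
    have l1 := lo 0
    have l2 := lo 5
    have key : ∀ a : ℝ, -5 ≤ a → a ≤ 5 → len (20, a) B₁ + len (20, a) B₂ <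
        len (4, 0) (20, -5) + len (4, 0) (20, 0) + len (4, 0) (20, 5) := fun a h3 h4 => by
      linarith [up a h3 h4 B₁ h1, up a h3 h4 B₂ h2]
    fin_cases i <;> exact key _ (by norm_num) (by norm_num)

end Pool.Agent.Results.MP_d05d56_co.Q1
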